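import Pool.Agent.Helper93.PL.St2

/-!
# Project PL, module PA: basic facts on the conditional expectation
-/

set_option autoImplicit false

namespace Pool.Agent.Helper72.PL

open Finset Filter Topology
open Pool.Agent.Helper61.PV Pool.Agent.Helper93.PL

theorem paPrime {w : ℕ} (p : Pw w) : Nat.Prime p.1 := (Finset.mem_filter.1 p.2).2

theorem paTwo {w : ℕ} (p : Pw w) : (2 : ℝ) ≤ (p.1 : ℝ) := by exact_mod_cast (paPrime p).two_le

/-- `p^(-p) ≤ 2^(-p)` -/
theorem paX {w : ℕ} (p : Pw w) : (1 / (p.1 : ℝ)) ^ p.1 ≤ (1 / 2 : ℝ) ^ p.1 := by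
  have h := paTwo p
  refine pow_le_pow_left₀ (by positivity) ?_ _
  exact one_div_le_one_div_of_le (by norm_num) h

theorem paX0 {w : ℕ} (p : Pw w) : 0 ≤ (1 / (p.1 : ℝ)) ^ p.1 := by
  have h := paTwo p
  positivity

theorem paX4 {w : ℕ} (p : Pw w) : (1 / (p.1 : ℝ)) ^ p.1 ≤ 1 / 4 := by
  refine (paX p).trans ?_
  calc (1 / 2 : ℝ) ^ p.1 ≤ (1 / 2 : ℝ) ^ 2 :=
        pow_le_pow_of_le_one (by norm_num) (by norm_num) (paPrime p).two_le
    _ = 1 / 4 := by norm_num

theorem paXpos {w : ℕ} (p : Pw w) : 0 < 1 - (1 / (p.1 : ℝ)) ^ p.1 := by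
  have := paX4 p
  linarith

theorem paBw {w : ℕ} (p : Pw w) (n : ℕ) : 0 ≤ bw p.1 n := by
  have h := paTwo p
  have h1 : (0 : ℝ) ≤ 1 - 1 / (p.1 : ℝ) := by
    have : 1 / (p.1 : ℝ) ≤ 1 / 2 := one_div_le_one_div_of_le (by norm_num) h
    linarith
  unfold bw
  positivity

theorem paGeo (w : ℕ) : ∑ n ∈ Icc 2 w, (1 / 2 : ℝ) ^ n ≤ 1 / 2 - (1 / 2) ^ (w + 1) + (1 / 2) ^ (w + 1) := by
  have key : ∀ w : ℕ, ∑ n ∈ Icc 2 (w + 1), (1 / 2 : ℝ) ^ n = 1 / 2 - (1 / 2) ^ (w + 1) := by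
    intro w
    induction w with
    | zero => simp
    | succ k ih =>
      rw [Finset.sum_Icc_succ_top (by omega), ih]
      ring
  rcases w with _ | w
  · simp
  · rw [key]
    have : (0 : ℝ) ≤ (1 / 2) ^ (w + 1) := by positivity
    linarith

theorem paSum (w : ℕ) : ∑ p : Pw w, (1 / (p.1 : ℝ)) ^ p.1 ≤ 1 / 2 := by
  calc ∑ p : Pw w, (1 / (p.1 : ℝ)) ^ p.1 ≤ ∑ p : Pw w, (1 / 2 : ℝ) ^ p.1 :=
        Finset.sum_le_sum fun p _ => paX p
    _ = ∑ p ∈ Pw w, (1 / 2 : ℝ) ^ p := Finset.sum_coe_sort (Pw w) fun p => (1 / 2 : ℝ) ^ p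
    _ ≤ ∑ n ∈ Icc 2 w, (1 / 2 : ℝ) ^ n := by
        refine Finset.sum_le_sum_of_subset_of_nonneg ?_ fun _ _ _ => by positivity
        intro p hp
        have h := Finset.mem_filter.1 hp
        have h1 := Finset.mem_Icc.1 h.1
        exact Finset.mem_Icc.2 ⟨h.2.two_le, h1.2⟩
    _ ≤ 1 / 2 := by
        have := paGeo w
        linarith

theorem paProd {α : Type*} (s : Finset α) (x : α → ℝ) (h0 : ∀ i ∈ s, 0 ≤ x i) (h1 : ∀ i ∈ s, x i ≤ 1) :
    1 - ∑ i ∈ s, x i ≤ ∏ i ∈ s, (1 - x i) := by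
  classical
  induction s using Finset.induction_on with
  | empty => simp
  | insert a s ha ih =>
    rw [Finset.sum_insert ha, Finset.prod_insert ha]
    have ih' := ih (fun i hi => h0 i (Finset.mem_insert_of_mem hi))
      (fun i hi => h1 i (Finset.mem_insert_of_mem hi))
    have ha0 := h0 a (Finset.mem_insert_self a s)
    have ha1 := h1 a (Finset.mem_insert_self a s)
    have hP1 : ∏ i ∈ s, (1 - x i) ≤ 1 := Finset.prod_le_one
      (fun i hi => by linarith [h1 i (Finset.mem_insert_of_mem hi)])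
      (fun i hi => by linarith [h0 i (Finset.mem_insert_of_mem hi)])
    nlinarith

theorem paPst (w : ℕ) : 1 / 2 ≤ Pst w := by
  have h := paProd (Finset.univ : Finset (Pw w)) (fun p => (1 / (p.1 : ℝ)) ^ p.1)
    (fun p _ => paX0 p) (fun p _ => by linarith [paX4 p])
  have h2 := paSum w
  unfold Pst
  linarith

theorem paW {w : ℕ} (n : Pw w → ℕ) :
    ∏ p : Pw w, bw p.1 (n p) / (1 - (1 / (p.1 : ℝ)) ^ p.1) = (∏ p : Pw w, bw p.1 (n p)) / Pst w := by
  unfold Pst
  rw [Finset.prod_div_distrib]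

theorem paW0 {w : ℕ} (n : Pw w → ℕ) :
    0 ≤ ∏ p : Pw w, bw p.1 (n p) / (1 - (1 / (p.1 : ℝ)) ^ p.1) :=
  Finset.prod_nonneg fun p _ => div_nonneg (paBw p _) (paXpos p).le

theorem hPa (hBm1 : StBm1) : Pool.Agent.Helper93.PL.StPa := by
  refine ⟨paPst, ?_, ?_, ?_, ?_⟩
  · intro w
    have h : Ec w (fun _ => 1) = ∏ p : Pw w, ∑ n ∈ range p.1, bw p.1 n / (1 - (1 / (p.1 : ℝ)) ^ p.1) := by
      unfold Ec
      rw [Finset.prod_univ_sum]
      exact Finset.sum_congr rfl fun n _ => mul_one _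
    rw [h]
    refine Finset.prod_eq_one fun p _ => ?_
    have h1 := (hBm1 p.1 (paPrime p).two_le).1
    rw [Finset.sum_range_succ] at h1
    have h2 : bw p.1 p.1 = (1 / (p.1 : ℝ)) ^ p.1 := by
      unfold bw
      simp
    rw [← Finset.sum_div, eq_sub_of_add_eq h1, h2]
    exact div_self (paXpos p).ne'
  · intro w G hG
    have hP := paPst w
    have hP0 : 0 < Pst w := by linarith
    have h1 : Ec w G ≤ ∑ n ∈ Fintype.piFinset (fun p : Pw w => range p.1),
        2 * ((∏ p : Pw w, bw p.1 (n p)) * G n) := by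
      unfold Ec
      refine Finset.sum_le_sum fun n _ => ?_
      rw [paW n, ← mul_assoc]
      refine mul_le_mul_of_nonneg_right ?_ (hG n)
      have hb : 0 ≤ ∏ p : Pw w, bw p.1 (n p) := Finset.prod_nonneg fun p _ => paBw p _
      rw [div_le_iff₀ hP0]
      nlinarith
    refine h1.trans ?_
    rw [← Finset.mul_sum]
    refine mul_le_mul_of_nonneg_left ?_ (by norm_num)
    refine Finset.sum_le_sum_of_subset_of_nonneg ?_ fun n _ _ =>
      mul_nonneg (Finset.prod_nonneg fun p _ => paBw p _) (hG n)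
    refine Fintype.piFinset_subset _ _ fun p => ?_
    exact Finset.range_mono (Nat.le_succ _)
  · intro w G G' h
    unfold Ec
    exact Finset.sum_le_sum fun n hn => mul_le_mul_of_nonneg_left (h n hn) (paW0 n)
  · intro w n hn
    unfold eu
    refine Finset.prod_pos fun p _ => ?_
    have h := Finset.mem_range.1 (Fintype.mem_piFinset.1 hn p)
    have hp := paTwo p
    have hp0 : (0 : ℝ) < p.1 := by linarith
    have h' : (n p : ℝ) < p.1 := by exact_mod_cast h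
    have h1 : (n p : ℝ) / p.1 < 1 := (div_lt_one hp0).2 h'
    have h2 : 1 / (p.1 : ℝ) < 1 := (div_lt_one hp0).2 (by linarith)
    exact div_pos (by linarith) (by linarith)

end Pool.Agent.Helper72.PL
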